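import Pool.Agent.J4H77.CB.Alm

/-!
# Almost all cubic characters: sums over all intervals, near the origin or far away from it

For all but at most `Q / y ^ A` of the primitive cubic Dirichlet characters `χ` of conductor at most `Q` the sums of `χ` over all the
intervals `(M, M + N]` with `y ≤ N ≤ Q ^ κ₀` and `M ≤ N ^ A` are at most `N ^ (1 / 2 + δ)`, also with weights.

Nothing is used besides Mathlib in the statement.

Method: every cubic Dirichlet character modulo `q` is, on the integers coprime to `3 q`, the product of a function modulo `9` and of the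
cubic residue symbol of an Eisenstein integer whose norm divides `q` (`Pool.Agent.J4H77.CB.rep_all`); cubic reciprocity; the high
moments of the sums over an interval far away from the origin, over all the Eisenstein integers of a square, by a hypercontractive
inequality for functions on products of cyclic groups and the number of the pairs of integers of the interval whose quotient is a cube.
-/

set_option autoImplicit false

namespace Pool.Agent.Results.MP_081200_nt.AlmostAllCharacters

open Finset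

/-- The property of the Dirichlet character `χ`: for all integers `N` with `y ≤ N ≤ X`, all functions `w i`, `i ∈ Λ N`, and all
`M ≤ N ^ A` we have `|∑ w (a) χ (a)| ≤ N ^ (1 / 2 + δ)`, where the sum runs over the `N` integers `a` with `M < a ≤ M + N`. -/
def AllIntervals (δ : ℝ) (A : ℕ) {κ : Type} (w : κ → ℕ → ℂ) (Λ : ℕ → Finset κ) (y : ℕ) (X : ℝ) {q : ℕ}
    (χ : DirichletCharacter ℂ q) : Prop :=
  ∀ N : ℕ, y ≤ N → (N : ℝ) ≤ X → ∀ i ∈ Λ N, ∀ M : ℕ, M ≤ N ^ A →
    ‖∑ a ∈ Ioc M (M + N), w i a * χ (a : ZMod q)‖ ≤ (N : ℝ) ^ (1 / 2 + δ)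

/-- The pairs `(q, χ)` of an integer `q` with `1 ≤ q ≤ Q` and a primitive Dirichlet character `χ` modulo `q` with `χ ^ 3 = 1` which
does not have the property `AllIntervals`. -/
def exceptions (δ : ℝ) (A : ℕ) {κ : Type} (w : κ → ℕ → ℂ) (Λ : ℕ → Finset κ) (y : ℕ) (X : ℝ) (Q : ℕ) :
    Set (Σ q : ℕ, DirichletCharacter ℂ q) :=
  {p | 1 ≤ p.1 ∧ p.1 ≤ Q ∧ p.2 ^ 3 = 1 ∧ p.2.IsPrimitive ∧ ¬ AllIntervals δ A w Λ y X p.2}

/-- **Almost all cubic characters, all intervals.** Let `δ > 0` and an integer `A ≥ 0` be given. There are `κ₀ > 0` and `y₀` such that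
for all `y ≥ y₀` and all `Q` the following holds.

Let `Λ N` be for every `N` any set of at most `N ^ A` functions `w` on the integers with `|w (a)| ≤ 1` (for example the function `1`
only). Then for all but at most `Q / y ^ A` of the primitive Dirichlet characters `χ` with `χ ^ 3 = 1` of conductor at most `Q`, all
integers `N` with `y ≤ N ≤ Q ^ κ₀`, all functions `w` from `Λ N` and all `M ≤ N ^ A` we have
`|∑ w (a) χ (a)| ≤ N ^ (1 / 2 + δ)`, where the sum runs over the `N` integers `a` with `M < a ≤ M + N`. -/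
theorem result (δ : ℝ) (hδ : 0 < δ) (A : ℕ) :
    ∃ κ₀ : ℝ, 0 < κ₀ ∧ ∃ y₀ : ℕ, ∀ y Q : ℕ, y₀ ≤ y →
    ∀ (κ : Type) (w : κ → ℕ → ℂ) (Λ : ℕ → Finset κ), (∀ i a, ‖w i a‖ ≤ 1) → (∀ N, (Λ N).card ≤ N ^ A) →
      (exceptions δ A w Λ y ((Q : ℝ) ^ κ₀) Q).Finite ∧
      ((exceptions δ A w Λ y ((Q : ℝ) ^ κ₀) Q).ncard : ℝ) ≤ 1 / (y : ℝ) ^ A * Q :=
  Pool.Agent.J4H77.CB.alm δ hδ A

end Pool.Agent.Results.MP_081200_nt.AlmostAllCharacters
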