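import Pool.Agent.J4H77.CB.Lin

/-!
# Sums of the cubic characters of a line of Eisenstein integers over all intervals, near the origin or far away from it

The cubic residue symbols of the Eisenstein integers `α = β t + γ` of a line, where `t` runs through the integers of an arbitrary
interval of length `T`; for example `α = t + ω`, of norm `t ^ 2 - t + 1`, the characters of the simplest cubic fields. For almost all
`t` the sums over all the intervals `(M, M + x]` with `M ≤ x ^ A` are at most `x ^ (1 / 2 + δ)`, for all the lengths `x` from a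
constant to a power of `T`.

Nothing is used besides Mathlib in the statement.

Method: for an interval far away from the origin the integers are not dense in the set of their products, and the usual divisor bound
does not suffice for the high moments of the sum. Instead the moments of the sum of the random model are bounded by a
hypercontractive inequality for functions on products of cyclic groups (`Pool.Agent.J4H77.CB.HC`, `HD`), in terms of the number of the
pairs of integers of the interval whose quotient is a cube, and the deviation of the family from the model, which is of the size `1 / p`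
at the prime `p` (`line_sum`), is part of the inequality. Cubic reciprocity (`Pool.Agent.X22.CC1`).
-/

set_option autoImplicit false

namespace Pool.Agent.Results.MP_081200_nt.LinearFamilies

open Finset

/-- The ring `ℤ[ω]` of the Eisenstein integers, `ω ^ 2 = - ω - 1`; `⟨u, v⟩` is `u + v ω`. -/
abbrev Eis : Type := QuadraticAlgebra ℤ (-1) (-1)

/-- The primitive cube root of unity `ω` in `ℤ[ω]`. -/
def om : Eis := ⟨0, 1⟩

/-- The norm of `u + v ω`, namely `u ^ 2 - u v + v ^ 2`. -/
def nm (α : Eis) : ℤ := α.re ^ 2 - α.re * α.im + α.im ^ 2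

/-- The complex cube root of unity `(- 1 + i √3) / 2`. -/
noncomputable def zeta : ℂ := ⟨-1 / 2, Real.sqrt 3 / 2⟩

open Classical in
/-- The cubic residue symbol of the rational integer `n` modulo the prime `π` of `ℤ[ω]` (of norm `p`): it is `0` if `π` divides `n`, and otherwise
it is `1`, `zeta` or `zeta ^ 2` according as `n ^ ((p - 1) / 3)` is congruent to `1`, to `ω` or to `ω ^ 2` modulo `π`. -/
noncomputable def residue (π : Eis) (n : ℕ) : ℂ :=
  if π ∣ (n : Eis) then 0 else if π ∣ (n : Eis) ^ (((nm π).natAbs - 1) / 3) - 1 then 1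
  else if π ∣ (n : Eis) ^ (((nm π).natAbs - 1) / 3) - om then zeta else zeta ^ 2

/-- The Dirichlet character `ψ` modulo the norm of `α` is the cubic residue symbol of `α`: for a decomposition of `α` into primes `π` (up to a unit), `ψ (n)` is the product of
the cubic residue symbols of `n` modulo these primes for all `n` coprime to the norm of `α`. -/
def IsSymbol (α : Eis) (ψ : DirichletCharacter ℂ (nm α).natAbs) : Prop :=
  ∃ P : Multiset Eis, (∀ π ∈ P, Prime π) ∧ Associated P.prod α ∧
    ∀ n : ℕ, n.Coprime (nm α).natAbs → ψ (n : ZMod (nm α).natAbs) = (P.map (fun π => residue π n)).prod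

/-- The property of `α`: if its norm is not divisible by `3`, then for the Dirichlet character `ψ` modulo the norm of `α` which is the
cubic residue symbol of `α`, all integers `x` with `y ≤ x ≤ X`, all functions `w i`, `i ∈ Λ x`, and all `M ≤ x ^ A` we have
`|∑ w (n) ψ (n)| ≤ x ^ (1 / 2 + δ)`, where the sum runs over the `x` integers `n` with `M < n ≤ M + x`. -/
def AllIntervals (δ : ℝ) (A : ℕ) {κ : Type} (w : κ → ℕ → ℂ) (Λ : ℕ → Finset κ) (y : ℕ) (X : ℝ) (α : Eis) : Prop :=
  ¬ (3 : ℤ) ∣ nm α → ∀ ψ : DirichletCharacter ℂ (nm α).natAbs, IsSymbol α ψ →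
    ∀ x : ℕ, y ≤ x → (x : ℝ) ≤ X → ∀ i ∈ Λ x, ∀ M : ℕ, M ≤ x ^ A →
      ‖∑ n ∈ Ioc M (M + x), w i n * ψ (n : ZMod (nm α).natAbs)‖ ≤ (x : ℝ) ^ (1 / 2 + δ)

open Pool.Agent.X22.CC Pool.Agent.X22.MT
open Pool.Agent.Y692.QS (Ei nr ep star_re epz wC)
open Pool.Agent.Y715.T.Rec (cs nn)
open Pool.Agent.Y715.T.RecG (cs_spec cs_uniq)

lemma residue_eq {π : Eis} (hπ : Prime π) (h3 : ¬ π ∣ 3) (n : ℕ) : residue π n = loc π (n : Ei) := by
  by_cases hd : π ∣ (n : Ei)
  · rw [loc_zero hd]
    unfold residue
    rw [if_pos hd]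
  · rw [loc_ne hd]
    have h1 := cs_spec hπ h3 hd
    unfold residue
    rw [if_neg hd]
    have e : ((nm π).natAbs - 1) / 3 = nn π := rfl
    rw [e]
    have key : ∀ c : ZMod 3, c = 0 ∨ c = 1 ∨ c = 2 := by decide
    have e0 : (Pool.Agent.Y692.QS.w : Ei) = om := rfl
    rcases key (cs π (n : Ei)) with h | h | h
    · rw [h] at h1 ⊢
      have h2 : π ∣ (n : Eis) ^ nn π - 1 := by
        have e1 : (Pool.Agent.Y692.QS.w : Ei) ^ (0 : ZMod 3).val = 1 := rfl
        rw [e1] at h1
        exact h1
      rw [if_pos h2]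
      rfl
    · rw [h] at h1 ⊢
      have e1 : (Pool.Agent.Y692.QS.w : Ei) ^ (1 : ZMod 3).val = om := by decide
      rw [e1] at h1
      have h2 : ¬ π ∣ (n : Eis) ^ nn π - 1 := by
        intro h2
        have h4 := cs_uniq hπ h3 (c := 0) (d := 1) (by
          have e2 : (Pool.Agent.Y692.QS.w : Ei) ^ (0 : ZMod 3).val = 1 := rfl
          rw [e2]
          exact h2) (by
          have e2 : (Pool.Agent.Y692.QS.w : Ei) ^ (1 : ZMod 3).val = om := by decide
          rw [e2]
          exact h1)
        exact absurd h4 (by decide)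
      rw [if_neg h2, if_pos h1]
      have e2 : (1 : ZMod 3).val = 1 := rfl
      rw [e2, pow_one]
      rfl
    · rw [h] at h1 ⊢
      have h2 : ¬ π ∣ (n : Eis) ^ nn π - 1 := by
        intro h2
        have h4 := cs_uniq hπ h3 (c := 0) (d := 2) (by
          have e2 : (Pool.Agent.Y692.QS.w : Ei) ^ (0 : ZMod 3).val = 1 := rfl
          rw [e2]
          exact h2) h1
        exact absurd h4 (by decide)
      have h2' : ¬ π ∣ (n : Eis) ^ nn π - om := by
        intro h2
        have h4 := cs_uniq hπ h3 (c := 1) (d := 2) (by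
          have e2 : (Pool.Agent.Y692.QS.w : Ei) ^ (1 : ZMod 3).val = om := by decide
          rw [e2]
          exact h2) h1
        exact absurd h4 (by decide)
      rw [if_neg h2, if_neg h2']
      have e2 : (2 : ZMod 3).val = 2 := rfl
      rw [e2]
      rfl

/-- the product of the symbols vanishes at the integers not coprime to the norm -/
lemma prod_zero (α : Ei) (P : Multiset Ei) (hP : ∀ π ∈ P, Prime π) (hPa : Associated P.prod α) (n : ℕ)
    (hn : ¬ n.Coprime (nr α).natAbs) : (P.map (fun π => loc π (n : Ei))).prod = 0 := by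
  obtain ⟨p, hp, hpn, hpα⟩ := Nat.Prime.not_coprime_iff_dvd.1 hn
  have hpZ : Prime (p : ℤ) := Nat.prime_iff_prime_int.1 hp
  have h1 : (p : ℤ) ∣ nr P.prod := by
    have h2 : nr P.prod = nr α := by
      obtain ⟨u, hu⟩ := hPa
      rw [← hu, Pool.Agent.Y692.QS.nr_mul, Pool.Agent.Y692.QS.isUnit_iff.1 u.isUnit, mul_one]
    rw [h2]
    exact (Int.natCast_dvd).2 hpα
  have h2 : ∀ s : Multiset Ei, (p : ℤ) ∣ nr s.prod → ∃ π ∈ s, (p : ℤ) ∣ nr π := by
    intro s
    induction s using Multiset.induction_on with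
    | empty =>
      intro h
      exfalso
      rw [Multiset.prod_zero, Pool.Agent.Y692.QS.nr_one] at h
      exact hpZ.not_isUnit (isUnit_of_dvd_one h)
    | cons a s ih =>
      intro h
      rw [Multiset.prod_cons, Pool.Agent.Y692.QS.nr_mul] at h
      rcases hpZ.dvd_or_dvd h with h | h
      · exact ⟨a, Multiset.mem_cons_self a s, h⟩
      · obtain ⟨π, hπ, h'⟩ := ih h
        exact ⟨π, Multiset.mem_cons_of_mem hπ, h'⟩
  obtain ⟨π, hπ, hpπ⟩ := h2 P h1
  obtain ⟨l, hl, hπl, hc⟩ := Pool.Agent.Y715.T.Rec.exists_p (hP π hπ)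
  have hpl : p = l := by
    have h3 : (p : ℤ) ∣ l := by
      rcases hc with h | h
      · rw [h] at hpπ
        exact hpπ
      · rw [h] at hpπ
        exact hpZ.dvd_of_dvd_pow hpπ
    exact (Nat.prime_dvd_prime_iff_eq hp hl).1 (by exact_mod_cast h3)
  have hπn : π ∣ (n : Ei) := by
    refine hπl.trans ?_
    rw [← hpl]
    exact_mod_cast (Nat.cast_dvd_cast hpn : ((p : ℕ) : Ei) ∣ (n : Ei))
  apply Multiset.prod_eq_zero
  rw [Multiset.mem_map]
  exact ⟨π, hπ, loc_zero hπn⟩

open Classical in
/-- **The cubic characters of a line of Eisenstein integers: all intervals, near and far.** Let integers `A ≥ 0`, `D ≥ 1` and `δ > 0` be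
given. There are `κ₀ > 0` and `y₀` such that for all `y ≥ y₀`, all Eisenstein integers `β`, `γ` of determinant `± D` and all `T` and
`a` the following holds.

Let `Λ x` be for every `x` any set of at most `x ^ A` functions `w` on the integers with `|w (n)| ≤ 1` (for example the function `1`
only). Then for all the integers `t` in `(a, a + T]` with at most `T / y ^ A` exceptions the Eisenstein integer `α = β t + γ` has, if
its norm is not divisible by `3`, the following property: for the Dirichlet character `ψ` modulo the norm of `α` which is the cubic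
residue symbol of `α`, all integers `x` with `y ≤ x ≤ T ^ κ₀`, all functions `w` from `Λ x` and all `M ≤ x ^ A` we have
`|∑ w (n) ψ (n)| ≤ x ^ (1 / 2 + δ)`, where the sum runs over the `x` integers `n` with `M < n ≤ M + x`. -/
theorem result (δ : ℝ) (hδ : 0 < δ) (A D : ℕ) (hD : D ≠ 0) :
    ∃ κ₀ : ℝ, 0 < κ₀ ∧ ∃ y₀ : ℕ, ∀ y T a : ℕ, y₀ ≤ y → ∀ β γ : Eis, (β.re * γ.im - β.im * γ.re).natAbs = D →
    ∀ (κ : Type) (w : κ → ℕ → ℂ) (Λ : ℕ → Finset κ), (∀ i n, ‖w i n‖ ≤ 1) → (∀ x, (Λ x).card ≤ x ^ A) →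
      (((Ioc a (a + T)).filter fun t : ℕ => ¬ AllIntervals δ A w Λ y ((T : ℝ) ^ κ₀) (β * (t : Eis) + γ)).card : ℝ) ≤ 1 / (y : ℝ) ^ A * T := by
  classical
  obtain ⟨κ₀, hκ₀, y₀, h⟩ := Pool.Agent.J4H77.CB.law_int (r := 3) (by norm_num) (3 * D) (by omega) δ hδ A (A + 4)
  refine ⟨κ₀, hκ₀, y₀ + 3, fun y T a hy β γ hβγ κ w Λ hw hΛ => ?_⟩
  have h3L : 3 ∣ 3 * D := dvd_mul_right 3 D
  refine h y T a (by omega) (κ × (ZMod 3 × ZMod 3)) (fun x => (Λ x) ×ˢ univ) ?_
    (fun n m => FF n (β * (m 0 : Ei) + γ)) (Pool.Agent.J4H77.CB.fr_line D hD β γ hβγ) (fun x q n => w q.1 n)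
    (fun x q n => FF n (star (epz q.2.1 q.2.2))) (fun x q n => hw q.1 n) (fun x q n => FF_norm _ _)
    (fun m => AllIntervals δ A w Λ y ((T : ℝ) ^ κ₀) (β * (m 0 : Ei) + γ)) ?_
  · intro x hx
    rw [card_product]
    have e1 : (univ : Finset (ZMod 3 × ZMod 3)).card = 9 := by decide
    rw [e1, pow_add]
    apply Nat.mul_le_mul (hΛ x)
    calc 9 ≤ 3 ^ 4 := by norm_num
      _ ≤ x ^ 4 := Nat.pow_le_pow_left (by omega) 4
  · intro m hm
    obtain ⟨α, hα⟩ : ∃ α : Ei, α = β * (m 0 : Ei) + γ := ⟨_, rfl⟩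
    show AllIntervals δ A w Λ y ((T : ℝ) ^ κ₀) (β * (m 0 : Ei) + γ)
    rw [← hα]
    intro h3 ψ hψ x hyx hxr i hi M hM
    obtain ⟨P, hP, hPa, hPψ⟩ := hψ
    have hP3 : ∀ π ∈ P, ¬ π ∣ 3 := by
      intro π hπ
      refine not_three (fun h => h3 (h.trans (nr_dvd ?_))) (hP π hπ)
      exact (Multiset.dvd_prod hπ).trans hPa.dvd
    obtain ⟨χ, hχ⟩ : ∃ χ : ℕ → ℂ, χ = fun (n : ℕ) => (P.map (fun π => loc π (n : Ei))).prod := ⟨_, rfl⟩
    have hχψ : ∀ n : ℕ, ψ (n : ZMod (nm α).natAbs) = χ n := by
      intro n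
      rw [hχ]
      show ψ (n : ZMod (nm α).natAbs) = (P.map (fun π => loc π (n : Ei))).prod
      by_cases hn : n.Coprime (nm α).natAbs
      · rw [hPψ n hn]
        congr 1
        apply Multiset.map_congr rfl
        intro π hπ
        exact residue_eq (hP π hπ) (hP3 π hπ) n
      · rw [prod_zero α P hP hPa n hn]
        apply MulChar.map_nonunit
        rw [ZMod.isUnit_iff_coprime]
        exact hn
    have h5 := hm x hyx hxr (i, ((α.re : ℤ) : ZMod 3), ((α.im : ℤ) : ZMod 3)) (mem_product.2 ⟨hi, mem_univ _⟩) χ ?_ ?_ ?_ M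
      (hM.trans (Nat.pow_le_pow_right (by omega) (by omega)))
    · have e1 : ∑ n ∈ Ioc M (M + x), w i n * ψ (n : ZMod (nm α).natAbs) = ∑ n ∈ Ioc M (M + x), w i n * χ n := by
        apply sum_congr rfl
        intro n _
        rw [hχψ n]
      rw [e1]
      exact h5
    · intro n
      rw [← hχψ n]
      exact DirichletCharacter.norm_le_one ψ _
    · intro n n' _ _
      rw [← hχψ, ← hχψ, ← hχψ, Nat.cast_mul, map_mul]
    · intro n hn1 hn
      have hn3 : ¬ 3 ∣ n := fun h => Nat.not_coprime_of_dvd_of_dvd (by norm_num : 1 < 3) h h3L hn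
      rw [hχ]
      show _ = FF n (star (epz ((α.re : ℤ) : ZMod 3) ((α.im : ℤ) : ZMod 3))) * FF n (β * (m 0 : Ei) + γ)
      rw [← hα]
      exact recip (by omega) hn3 α h3 P hP hPa

end Pool.Agent.Results.MP_081200_nt.LinearFamilies
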